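import Pool.Agent.D0H39.NG.Stm3
import Pool.Agent.D0H13.NG.Lam

/-!
# NG, module GP1: the differential of a flow at a fixed point
-/

set_option autoImplicit false

open Set Filter Topology Metric Function
open scoped ContDiff RealInnerProductSpace NNReal

noncomputable section

namespace Pool.Agent.D0H21.NG

open Pool.Agent.D0H39.NG

/-- translation -/
theorem hasDerivAt_of_shift {W : Type} [NormedAddCommGroup W] [NormedSpace ℝ W] {f : ℝ → W} {v : W}
    {t : ℝ} (h : HasDerivAt (fun s => f (t + s)) v 0) : HasDerivAt f v t := by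
  have h6 : HasDerivAt (fun s => f (t + s)) v (t - t) := by
    rw [sub_self]
    exact h
  have h7 := HasDerivAt.comp_sub_const t t h6
  simpa using h7

theorem const_of_deriv {W : Type} [NormedAddCommGroup W] [NormedSpace ℝ W] {f : ℝ → W}
    (h : ∀ t, HasDerivAt f 0 t) (t : ℝ) : f t = f 0 :=
  is_const_of_deriv_eq_zero (fun t => (h t).differentiableAt) (fun t => (h t).deriv) t 0

theorem t_GRP : S_GRP := by
  intro V _ _ _ X φ hX hφ z hz a ha t
  have hφs : ∀ t, ContDiff ℝ ∞ (φ t) := fun t => by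
    have h1 : ContDiff ℝ ∞ (fun z : V => (t, z)) := by fun_prop
    exact hφ.smooth.comp h1
  have hφd : ∀ t y, HasFDerivAt (φ t) (fderiv ℝ (φ t) y) y := fun t y =>
    ((hφs t).differentiable (by simp) _).hasFDerivAt
  have hφ0 : φ 0 = id := by
    funext y
    exact hφ.zero y
  -- the fixed point
  have hfix : ∀ t, φ t z = z := by
    intro t
    have h1 : ∀ t, HasDerivAt (fun t => φ t z) 0 t := by
      intro t
      apply hasDerivAt_of_shift
      have h2 : HasDerivAt (fun s => φ s z) (X (φ 0 z)) 0 := hφ.deriv z 0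
      have h4 : HasDerivAt (fun s => φ t (φ s z)) (fderiv ℝ (φ t) (φ 0 z) (X (φ 0 z))) 0 :=
        (hφd t (φ 0 z)).comp_hasDerivAt (0 : ℝ) h2
      rw [hφ.zero, hz, map_zero] at h4
      have h5 : (fun s => φ (t + s) z) = fun s => φ t (φ s z) := by
        funext s
        exact hφ.add t s z
      rw [h5]
      exact h4
    have h2 := const_of_deriv h1 t
    rw [hφ.zero] at h2
    exact h2
  -- the group of the differentials
  have hadd : ∀ t s b, fderiv ℝ (φ (t + s)) z b = fderiv ℝ (φ t) z (fderiv ℝ (φ s) z b) := by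
    intro t s b
    have h5 : φ (t + s) = fun y => φ t (φ s y) := by
      funext y
      exact hφ.add t s y
    have h6 : HasFDerivAt (fun y => φ t (φ s y)) ((fderiv ℝ (φ t) (φ s z)).comp (fderiv ℝ (φ s) z)) z :=
      (hφd t (φ s z)).comp z (hφd s z)
    rw [h5, h6.fderiv, hfix s]
    rfl
  have hM0 : ∀ b, HasDerivAt (fun s => fderiv ℝ (φ s) z b) (fderiv ℝ X z b) 0 := by
    intro b
    have h1 := Pool.Agent.D0H13.NG.hasDerivAt_fderiv (g := φ) (g' := fun t z => X (φ t z)) hφ.smooth
      (fun t z => hφ.deriv z t) 0 z b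
    have h2 : (fun z => X (φ 0 z)) = X := by
      rw [hφ0]
      rfl
    rw [h2] at h1
    exact h1
  have hMd : ∀ t b, HasDerivAt (fun s => fderiv ℝ (φ s) z b) (fderiv ℝ (φ t) z (fderiv ℝ X z b)) t := by
    intro t b
    apply hasDerivAt_of_shift
    have h1 : (fun s => fderiv ℝ (φ (t + s)) z b) =
        fun s => fderiv ℝ (φ t) z (fderiv ℝ (φ s) z b) := by
      funext s
      exact hadd t s b
    rw [h1]
    exact (fderiv ℝ (φ t) z).hasFDerivAt.comp_hasDerivAt (0 : ℝ) (hM0 b)
  have hid : ∀ b, fderiv ℝ (φ 0) z b = b := by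
    intro b
    rw [hφ0, fderiv_id]
    rfl
  have hAa : ∀ t, fderiv ℝ (φ t) z (fderiv ℝ X z a) = fderiv ℝ X z a := by
    intro t
    have h1 : ∀ t, HasDerivAt (fun s => fderiv ℝ (φ s) z (fderiv ℝ X z a)) 0 t := by
      intro t
      have h2 := hMd t (fderiv ℝ X z a)
      rw [ha, map_zero] at h2
      exact h2
    have h2 := const_of_deriv h1 t
    rw [hid] at h2
    exact h2
  have h3 : ∀ t, HasDerivAt (fun s => fderiv ℝ (φ s) z a - s • fderiv ℝ X z a) 0 t := by
    intro t
    have h4 := hMd t a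
    rw [hAa] at h4
    have h5 : HasDerivAt (fun s : ℝ => s • fderiv ℝ X z a) ((1 : ℝ) • fderiv ℝ X z a) t :=
      (hasDerivAt_id t).smul_const _
    have h6 := h4.sub h5
    rw [one_smul, sub_self] at h6
    exact h6
  have h4 := const_of_deriv h3 t
  simp only [zero_smul, sub_zero] at h4
  rw [hid] at h4
  exact sub_eq_iff_eq_add.1 h4

end Pool.Agent.D0H21.NG
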