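import Pool.Agent.D0H39.NG.Stm3
import Pool.Agent.D0H39.NG.Ct

/-!
# NG, module GP3: tangent vectors near the zero section
-/

set_option autoImplicit false

open Set Filter Topology Metric Function
open scoped ContDiff RealInnerProductSpace NNReal

noncomputable section

namespace Pool.Agent.D0H21.NG

open Pool.Agent.D0H39.NG

variable {m : ℕ}

/-- the projection to the tangent spaces of the cotangent bundle -/
def PP (P : E m → E m →L[ℝ] E m) (z : E m × E m) : (E m × E m) →L[ℝ] (E m × E m) :=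
  ((P z.1).comp (ContinuousLinearMap.fst ℝ (E m) (E m))).prod
    ((((fderiv ℝ P z.1).flip z.2).comp ((P z.1).comp (ContinuousLinearMap.fst ℝ (E m) (E m)))) +
      (P z.1).comp (ContinuousLinearMap.snd ℝ (E m) (E m)))

theorem PP_apply (P : E m → E m →L[ℝ] E m) (z a : E m × E m) :
    PP P z a = (P z.1 a.1, fderiv ℝ P z.1 (P z.1 a.1) z.2 + P z.1 a.2) := rfl

theorem PP_cont (P : E m → E m →L[ℝ] E m) (hP : ContDiff ℝ ∞ P) : Continuous (PP P) := by
  have h1 : Continuous fun z : E m × E m => P z.1 := hP.continuous.comp continuous_fst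
  have h2 : Continuous fun z : E m × E m => fderiv ℝ P z.1 :=
    (hP.continuous_fderiv (by simp)).comp continuous_fst
  have h3 : Continuous fun z : E m × E m => (fderiv ℝ P z.1).flip := by
    exact (ContinuousLinearMap.flipₗᵢ ℝ (E m) (E m) (E m)).continuous.comp h2
  have h4 : Continuous fun z : E m × E m => (fderiv ℝ P z.1).flip z.2 := h3.clm_apply continuous_snd
  have h5 : Continuous fun z : E m × E m => (P z.1).comp (ContinuousLinearMap.fst ℝ (E m) (E m)) :=
    h1.clm_comp continuous_const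
  have h6 : Continuous fun z : E m × E m => (P z.1).comp (ContinuousLinearMap.snd ℝ (E m) (E m)) :=
    h1.clm_comp continuous_const
  have h7 : Continuous fun z : E m × E m => (((fderiv ℝ P z.1).flip z.2).comp
      ((P z.1).comp (ContinuousLinearMap.fst ℝ (E m) (E m)))) +
      (P z.1).comp (ContinuousLinearMap.snd ℝ (E m) (E m)) := (h4.clm_comp h5).add h6
  exact (ContinuousLinearMap.prodₗᵢ ℝ : (((E m × E m) →L[ℝ] E m) × ((E m × E m) →L[ℝ] E m)) ≃ₗᵢ[ℝ]
    ((E m × E m) →L[ℝ] E m × E m)).continuous.comp (h5.prodMk h7)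

theorem t_UNI : S_UNI := by
  intro m N P g hN hP hg h0 ε hε
  have hG : Continuous fun z : E m × E m => (g z).comp (PP P z) := hg.clm_comp (PP_cont P hP.smooth)
  have hK : IsCompact (N ×ˢ ({0} : Set (E m))) := hN.prod isCompact_singleton
  have hU : IsOpen {z : E m × E m | ‖(g z).comp (PP P z)‖ < ε} := isOpen_lt hG.norm continuous_const
  have hsub : N ×ˢ ({0} : Set (E m)) ⊆ {z : E m × E m | ‖(g z).comp (PP P z)‖ < ε} := by
    rintro ⟨q, p⟩ ⟨hq, hp⟩
    change q ∈ N at hq
    change p = 0 at hp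
    subst hp
    have h1 : (g (q, 0)).comp (PP P (q, 0)) = 0 := by
      apply ContinuousLinearMap.ext
      intro a
      change g (q, 0) (PP P (q, 0) a) = 0
      rw [PP_apply]
      simp only [map_zero, zero_add]
      exact h0 q hq (P q a.1, P q a.2) (hP.mem hq _) (hP.mem hq _)
    change ‖(g (q, 0)).comp (PP P (q, 0))‖ < ε
    rw [h1, norm_zero]
    exact hε
  obtain ⟨δ, hδ, hδU⟩ := hK.exists_thickening_subset_open hU hsub
  refine ⟨δ / 2, by positivity, fun z hz hz2 a ha => ?_⟩
  have h1 : z ∈ thickening δ (N ×ˢ ({0} : Set (E m))) := by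
    rw [mem_thickening_iff]
    refine ⟨(z.1, 0), ⟨hz.1, rfl⟩, ?_⟩
    rw [Prod.dist_eq, dist_self]
    simp only [dist_zero_right]
    rw [max_eq_right (norm_nonneg _)]
    linarith
  have h2 : ‖(g z).comp (PP P z)‖ < ε := hδU h1
  obtain ⟨h3, h4⟩ := ((t_CT m N P hN.isClosed hP).2 z hz a).1 ha
  have h5 : P z.1 a.1 = a.1 := (hP.tan _ hz.1 _).1 h3
  have h6 : PP P z a = a := by
    rw [PP_apply, h5, ← h4]
  calc ‖g z a‖ = ‖(g z).comp (PP P z) a‖ := by
        change _ = ‖g z (PP P z a)‖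
        rw [h6]
    _ ≤ ‖(g z).comp (PP P z)‖ * ‖a‖ := ContinuousLinearMap.le_opNorm _ _
    _ ≤ ε * ‖a‖ := mul_le_mul_of_nonneg_right h2.le (norm_nonneg _)

end Pool.Agent.D0H21.NG
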